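import Pool.Agent.Helper35.EAM.Spec
import Pool.Graph.R_seed8.H47R2.EA.BASIC

/-!
# EAM, part NETJ: the network of a realisation of the signs
-/

set_option autoImplicit false

namespace Helper85.EAM

open Pool.H47EA Pool.H47EA.Basic Pool.Agent.Helper35.EAM

theorem mem_NdS {k n : ℕ} {x : Fin k → ℤ} :
    x ∈ NdS k n ↔ (∀ i, 0 ≤ x i ∧ x i < n) ∧ ∑ i, x i < n := by
  simp [NdS, Fintype.mem_piFinset]

theorem mem_BdS {k n : ℕ} {x : Fin k → ℤ} :
    x ∈ BdS k n ↔ (∀ i, 0 ≤ x i ∧ x i ≤ n) ∧ ∑ i, x i = n := by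
  simp [BdS, Fintype.mem_piFinset]

theorem sum_up {k : ℕ} (x : Fin k → ℤ) (c : Fin k) : ∑ i, up x c i = ∑ i, x i + 1 := by
  simp [up, Finset.sum_add_distrib]

theorem up_ne {k : ℕ} (x : Fin k → ℤ) (c : Fin k) : up x c ≠ x := by
  intro h
  have := sum_up x c
  rw [h] at this
  omega

theorem up_mem {k n : ℕ} {x : Fin k → ℤ} (hx : x ∈ NdS k n) (c : Fin k) :
    up x c ∈ NdS k n ∨ up x c ∈ BdS k n := by
  rw [mem_NdS] at hx
  obtain ⟨h1, h2⟩ := hx
  have hs := sum_up x c
  have h0 : ∀ i, 0 ≤ up x c i := by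
    intro i
    simp only [up, Pi.add_apply, Pi.single_apply]
    have := (h1 i).1
    split_ifs <;> omega
  have hle : ∀ i, up x c i ≤ ∑ i, up x c i := fun i =>
    Finset.single_le_sum (f := up x c) (fun j _ => h0 j) (Finset.mem_univ i)
  rcases lt_or_ge (∑ i, up x c i) (n : ℤ) with h | h
  · left
    rw [mem_NdS]
    exact ⟨fun i => ⟨h0 i, lt_of_le_of_lt (hle i) h⟩, h⟩
  · right
    rw [mem_BdS]
    have he : ∑ i, up x c i = n := by omega
    exact ⟨fun i => ⟨h0 i, he ▸ hle i⟩, he⟩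

theorem mem_SJ {k d n : ℕ} {J : Coupling d} {i : Bool × Bond k} :
    i ∈ SJ k d n J ↔ i.2.1 ∈ NdS k n ∧ Good J i.2 := by
  simp [SJ]

theorem t_NETJ (hG : S_GEOM) (hF : S_FIELD) : S_NETJ := by
  classical
  intro k d n J hkd
  have hkd2 : 2 * k ≤ d := by omega
  obtain ⟨g1, g2, g3, g4, g5, g6, g7, g8⟩ := hG k d hkd2
  set A : Finset (Site d) := NdF k d n ∪ BdF k d n ∪ (SJ k d n J).image (fw k d) with hA
  have hNd : ∀ x, x ∈ NdF k d n ↔ ∃ a ∈ NdS k n, nd k d a = x := by
    intro x; simp [NdF]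
  have hBd : ∀ x, x ∈ BdF k d n ↔ ∃ a ∈ BdS k n, nd k d a = x := by
    intro x; simp [BdF]
  have hum : ∀ i ∈ SJ k d n J, fu k d i ∈ NdF k d n := by
    intro i hi
    rw [mem_SJ] at hi
    exact (hNd _).2 ⟨_, hi.1, rfl⟩
  have hvm : ∀ i ∈ SJ k d n J, fv k d i ∈ NdF k d n ∨ fv k d i ∈ BdF k d n := by
    intro i hi
    rw [mem_SJ] at hi
    rcases up_mem hi.1 i.2.2 with h | h
    · exact Or.inl ((hNd _).2 ⟨_, h, rfl⟩)
    · exact Or.inr ((hBd _).2 ⟨_, h, rfl⟩)
  have hadW : ∀ i ∈ SJ k d n J, ∀ y, (y ∈ NdF k d n ∨ y ∈ BdF k d n) →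
      (dist1 (fw k d i) y = 1 ↔ y = fu k d i ∨ y = fv k d i) := by
    intro i hi y hy
    obtain ⟨z, rfl⟩ : ∃ z, nd k d z = y := by
      rcases hy with hy | hy
      · obtain ⟨z, _, h⟩ := (hNd _).1 hy; exact ⟨z, h⟩
      · obtain ⟨z, _, h⟩ := (hBd _).1 hy; exact ⟨z, h⟩
    show dist1 (im k d i.1 i.2.1 i.2.2) (nd k d z) = 1 ↔
      nd k d z = nd k d i.2.1 ∨ nd k d z = nd k d (up i.2.1 i.2.2)
    rw [g3]
    constructor
    · rintro (h | h)
      · left; rw [h]
      · right; rw [h]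
    · rintro (h | h)
      · left; exact g1 _ _ h
      · right; exact g1 _ _ h
  have hslab : ∀ x ∈ A, ∀ i : Fin d, 2 * k ≤ i.val → x i = 0 := by
    intro x hx i hi
    rw [hA, Finset.mem_union, Finset.mem_union] at hx
    rcases hx with (hx | hx) | hx
    · obtain ⟨z, _, rfl⟩ := (hNd _).1 hx
      show nd k d z i = 0
      unfold nd
      rw [dif_neg (by omega)]
    · obtain ⟨z, _, rfl⟩ := (hBd _).1 hx
      show nd k d z i = 0
      unfold nd
      rw [dif_neg (by omega)]
    · rw [Finset.mem_image] at hx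
      obtain ⟨j, _, rfl⟩ := hx
      exact (g7 j.1 j.2.1 j.2.2 i hi).2
  have hsub : NdF k d n ∪ (SJ k d n J).image (fw k d) ⊆ A := by
    intro x hx
    rw [hA]
    rw [Finset.mem_union] at hx
    rw [Finset.mem_union, Finset.mem_union]
    rcases hx with h | h
    · exact Or.inl (Or.inl h)
    · exact Or.inr h
  have hEven : ∀ x ∈ NdF k d n ∪ (SJ k d n J).image (fw k d), Even (nbr x ∩ A).card := by
    intro x hx
    rw [Finset.mem_union] at hx
    rcases hx with hx | hx
    · obtain ⟨y, hy, rfl⟩ := (hNd _).1 hx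
      -- index set
      set T : Finset (Bond k) := ((NdS k n) ×ˢ (Finset.univ : Finset (Fin k))).filter
        (fun b => Good J b ∧ (y = b.1 ∨ y = up b.1 b.2)) with hT
      have e : nbr (nd k d y) ∩ A =
          ((Finset.univ : Finset Bool) ×ˢ T).image (fun i => fw k d i) := by
        ext z
        rw [Finset.mem_inter, mem_nbr, Finset.mem_image]
        constructor
        · rintro ⟨h1, h2⟩
          rw [hA, Finset.mem_union, Finset.mem_union] at h2
          rcases h2 with (h2 | h2) | h2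
          · obtain ⟨a, _, rfl⟩ := (hNd _).1 h2
            exact absurd h1 (g2 _ _)
          · obtain ⟨a, _, rfl⟩ := (hBd _).1 h2
            exact absurd h1 (g2 _ _)
          · rw [Finset.mem_image] at h2
            obtain ⟨i, hi, rfl⟩ := h2
            refine ⟨i, ?_, rfl⟩
            rw [Basic.dist1_comm] at h1
            have h3 := (g3 i.1 i.2.1 y i.2.2).1 h1
            have h4 := mem_SJ.1 hi
            simp only [Finset.mem_product, Finset.mem_univ, true_and, hT, Finset.mem_filter,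
              and_true]
            exact ⟨h4.1, h4.2, h3⟩
        · rintro ⟨i, hi, rfl⟩
          simp only [Finset.mem_product, Finset.mem_univ, true_and, hT, Finset.mem_filter,
              and_true] at hi
          obtain ⟨hi1, hi2, hi3⟩ := hi
          constructor
          · rw [Basic.dist1_comm]
            exact (g3 i.1 i.2.1 y i.2.2).2 hi3
          · rw [hA, Finset.mem_union]
            right
            exact Finset.mem_image_of_mem _ (mem_SJ.2 ⟨hi1, hi2⟩)
      rw [e, Finset.card_image_of_injOn]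
      · rw [Finset.card_product]
        simp
      · intro i _ j _ hij
        obtain ⟨h1, h2, h3⟩ := g5 i.1 j.1 i.2.1 j.2.1 i.2.2 j.2.2 hij
        exact Prod.ext h1 (Prod.ext h2 h3)
    · rw [Finset.mem_image] at hx
      obtain ⟨i, hi, rfl⟩ := hx
      have e : nbr (fw k d i) ∩ A = {fu k d i, fv k d i} := by
        ext z
        rw [Finset.mem_inter, mem_nbr, Finset.mem_insert, Finset.mem_singleton]
        constructor
        · rintro ⟨h1, h2⟩
          rw [hA, Finset.mem_union, Finset.mem_union] at h2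
          rcases h2 with h2 | h2
          · exact (hadW i hi z h2).1 h1
          · rw [Finset.mem_image] at h2
            obtain ⟨j, hj, rfl⟩ := h2
            exact absurd h1 (g4 _ _ _ _ _ _)
        · intro h
          have hz : z ∈ NdF k d n ∨ z ∈ BdF k d n := by
            rcases h with rfl | rfl
            · exact Or.inl (hum i hi)
            · exact hvm i hi
          refine ⟨(hadW i hi z hz).2 h, ?_⟩
          rw [hA, Finset.mem_union, Finset.mem_union]
          exact Or.inl hz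
      rw [e, Finset.card_pair]
      · exact ⟨1, rfl⟩
      · intro h
        exact up_ne _ _ (g1 _ _ h).symm
  obtain ⟨ω, hω⟩ := hF k d J A _ hkd hslab hsub hEven
  refine ⟨ω, fun ω' hω' => ?_⟩
  have hfield : ∀ x ∈ NdF k d n ∪ (SJ k d n J).image (fw k d),
      ∑ y ∈ nbr x \ A, Jc J x y * sg (ω' y) = 0 := by
    intro x hx
    rw [← hω x hx]
    refine Finset.sum_congr rfl fun y hy => ?_
    rw [Finset.mem_sdiff] at hy
    rw [hω' y]
    intro hb
    apply hy.2
    rw [hA, Finset.mem_union, Finset.mem_union]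
    exact Or.inl (Or.inr hb)
  refine ⟨?_, ?_, ?_, ?_, ?_, ?_, ?_, hadW, ?_, ?_, ?_, ?_, ?_⟩
  · intro i _ j _ hij
    obtain ⟨h1, h2, h3⟩ := g5 i.1 j.1 i.2.1 j.2.1 i.2.2 j.2.2 hij
    exact Prod.ext h1 (Prod.ext h2 h3)
  · intro i _ h
    obtain ⟨z, _, hz⟩ := (hNd _).1 h
    exact g6 _ _ _ _ hz
  · intro i _ h
    obtain ⟨z, _, hz⟩ := (hBd _).1 h
    exact g6 _ _ _ _ hz
  · intro x h h'
    obtain ⟨z, hz1, rfl⟩ := (hNd _).1 h
    obtain ⟨z', hz2, hz3⟩ := (hBd _).1 h'
    have := g1 _ _ hz3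
    subst this
    have h1 := (mem_NdS.1 hz1).2
    have h2 := (mem_BdS.1 hz2).2
    omega
  · intro i _ h
    exact up_ne _ _ (g1 _ _ h).symm
  · intro i hi
    exact Or.inl (hum i hi)
  · exact hvm
  · intro i _ j _
    exact g4 _ _ _ _ _ _
  · intro x hx y hy
    obtain ⟨z, _, rfl⟩ := (hNd _).1 hx
    rcases hy with hy | hy
    · obtain ⟨z', _, rfl⟩ := (hNd _).1 hy
      exact g2 _ _
    · obtain ⟨z', _, rfl⟩ := (hBd _).1 hy
      exact g2 _ _
  · intro x hx
    exact hfield x (Finset.mem_union_left _ hx)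
  · intro i hi
    exact hfield _ (Finset.mem_union_right _ (Finset.mem_image_of_mem _ hi))
  · intro i hi
    exact (mem_SJ.1 hi).2 i.1

end Helper85.EAM
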